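import Pool.Agent.J6H54.CG.Stm

/-! Project CG, module CG-15: elementary facts on conjugation. -/

set_option autoImplicit false

namespace Pool.Agent.J6H42.CG15

open Pool.Agent.J6H54.CG

variable {k : ℕ} {T : Finset Pt}

lemma cj_refl (p : Pt) : Cj k p p := ⟨(0, 0), ka_zero, by rw [one_mul', mul_one']⟩

lemma cj_symm (hk : 2 ≤ k) {p q : Pt} (h : Cj k p q) : Cj k q p := by
  obtain ⟨c, hc, e⟩ := h
  refine ⟨inv k c, ka_inv hk hc, ?_⟩
  calc mul k (inv k c) q = mul k (mul k (inv k c) q) (mul k c (inv k c)) := by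
        rw [mul_inv' hk, mul_one']
    _ = mul k (mul k (inv k c) (mul k q c)) (inv k c) := by
        rw [mul_assoc' hk, mul_assoc' hk, mul_assoc' hk]
    _ = mul k p (inv k c) := by
        rw [← e, ← mul_assoc' hk, inv_mul' hk, one_mul']

lemma cj_trans (hk : 2 ≤ k) {p q r : Pt} (h : Cj k p q) (h' : Cj k q r) : Cj k p r := by
  obtain ⟨c, hc, e⟩ := h
  obtain ⟨d, hd, e'⟩ := h'
  refine ⟨mul k d c, ka_mul hk hd hc, ?_⟩
  rw [mul_assoc' hk, e, ← mul_assoc' hk, e', mul_assoc' hk]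

lemma cj_snd {p q : Pt} (h : Cj k p q) : p.2 = q.2 := by
  obtain ⟨c, -, e⟩ := h
  have h1 : c.2 + p.2 = q.2 + c.2 := congrArg Prod.snd e
  omega

lemma cj_inv (hk : 2 ≤ k) {p q : Pt} (h : Cj k p q) : Cj k (inv k p) (inv k q) := by
  obtain ⟨c, hc, e⟩ := h
  refine ⟨c, hc, ?_⟩
  calc mul k c (inv k p) = mul k (mul k (inv k q) q) (mul k c (inv k p)) := by
        rw [inv_mul' hk, one_mul']
    _ = mul k (inv k q) (mul k (mul k q c) (inv k p)) := by
        rw [mul_assoc' hk, mul_assoc' hk]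
    _ = mul k (inv k q) c := by
        rw [← e, mul_assoc' hk c, mul_inv' hk, mul_one']

lemma cj_ka (hk : 2 ≤ k) {p q : Pt} (h : Cj k p q) (hp : KA k p.1) : KA k q.1 := by
  obtain ⟨c, hc, e⟩ := h
  have h1 : q = mul k (mul k c p) (inv k c) := by
    rw [e, mul_assoc' hk, mul_inv' hk, mul_one']
  rw [h1]
  exact ka_mul hk (ka_mul hk hc hp) (ka_inv hk hc)

lemma clen_eq (hk : 2 ≤ k) {p q : Pt} (h : Cj k p q) : clen k T p = clen k T q := by
  unfold clen
  congr 1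
  ext n
  constructor
  · rintro ⟨r, hr, e⟩
    exact ⟨r, cj_trans hk (cj_symm hk h) hr, e⟩
  · rintro ⟨r, hr, e⟩
    exact ⟨r, cj_trans hk h hr, e⟩

lemma clen_mem (p : Pt) : ∃ q : Pt, Cj k p q ∧ len k T q = clen k T p :=
  Nat.sInf_mem (s := {n | ∃ q : Pt, Cj k p q ∧ len k T q = n}) ⟨_, p, cj_refl p, rfl⟩

lemma clen_le {p q : Pt} (h : Cj k p q) : clen k T p ≤ len k T q :=
  Nat.sInf_le ⟨q, h, rfl⟩

lemma clen_inv_le (hT : Gen k T) {p : Pt} (hp : KA k p.1) :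
    clen k T (inv k p) ≤ clen k T p := by
  obtain ⟨q, hq, e⟩ := clen_mem (k := k) (T := T) p
  rw [← e, ← len_inv hT (cj_ka hT.two_le hq hp)]
  exact clen_le (cj_inv hT.two_le hq)

/-- CG-15 -/
theorem m15 : S_cj := by
  intro k T hT
  have hk := hT.two_le
  refine ⟨cj_refl, fun p q => cj_symm hk, fun p q r => cj_trans hk, fun p q => cj_snd,
    fun p q => cj_inv hk, fun p q => clen_eq hk, fun p => clen_le (cj_refl p), fun p hp => ?_,
    fun p hp => ?_⟩
  · refine le_antisymm (clen_inv_le hT hp) ?_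
    have h := clen_inv_le hT (ka_inv hk hp)
    rwa [inv_inv' hk] at h
  · obtain ⟨q, hq, e⟩ := clen_mem (k := k) (T := T) p
    exact ⟨q, cj_ka hk hq hp, hq, e⟩

end Pool.Agent.J6H42.CG15
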